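import Pool.Agent.Lib.MP_7682a8_an.KB.Iface

/-!
MP_7682a8_an, project KB, module SUP: majorants of `E₀` and `M`.
-/

set_option autoImplicit false

namespace Pool.Agent.Lib.MP_7682a8_an.KB.H6

open Finset

/-- Taylor remainder of order 14 of `exp (c x)` -/
theorem rem_bound (x : ℂ) (X c : ℝ) (hx : ‖x‖ ≤ X) (hX : X ≤ 18 / 25) (hc0 : 0 ≤ c)
    (hc : c ≤ 3) :
    ‖Complex.exp ((c : ℂ) * x) - ∑ k ∈ range 14, ((c : ℂ) * x) ^ k / (k.factorial : ℂ)‖ ≤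
      (c * X) ^ 14 / (Nat.factorial 14 : ℝ) * 2 := by
  have hX0 : 0 ≤ X := (norm_nonneg x).trans hx
  have h1 : ‖(c : ℂ) * x‖ ≤ c * X := by
    rw [norm_mul, Complex.norm_real, Real.norm_of_nonneg hc0]
    exact mul_le_mul_of_nonneg_left hx hc0
  have h2 : ‖(c : ℂ) * x‖ / ((14 : ℕ).succ : ℝ) ≤ 1 / 2 := by
    rw [div_le_iff₀ (by positivity)]
    push_cast
    nlinarith
  refine (Complex.exp_bound' h2).trans ?_
  gcongr

/-- combination of three exponentials -/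
theorem comb (A B C : ℝ) (a b : ℕ → ℝ) (x : ℂ) (X : ℝ) (hx : ‖x‖ ≤ X) (hX : X ≤ 18 / 25)
    (K : ℂ) (hK : ∀ y : ℂ, K + ∑ k ∈ range 14, ((A : ℂ) * (3 * y) ^ k / (k.factorial : ℂ) +
      (B : ℂ) * (2 * y) ^ k / (k.factorial : ℂ) + (C : ℂ) * y ^ k / (k.factorial : ℂ)) =
        ∑ k ∈ range 14, (a k : ℂ) * y ^ k)
    (hab : ∀ k ∈ range 14, |a k| ≤ b k) :
    ‖K + (A : ℂ) * Complex.exp (3 * x) + (B : ℂ) * Complex.exp (2 * x) +
        (C : ℂ) * Complex.exp x‖ ≤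
      ∑ k ∈ range 14, b k * X ^ k + (|A| * 3 ^ 14 + |B| * 2 ^ 14 + |C|) *
        (X ^ 14 / (Nat.factorial 14 : ℝ) * 2) := by
  have hX0 : 0 ≤ X := (norm_nonneg x).trans hx
  have r3 := rem_bound x X 3 hx hX (by norm_num) (by norm_num)
  have r2 := rem_bound x X 2 hx hX (by norm_num) (by norm_num)
  have r1 := rem_bound x X 1 hx hX (by norm_num) (by norm_num)
  norm_num only [Complex.ofReal_ofNat, Complex.ofReal_one, one_mul] at r3 r2 r1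
  set R3 : ℂ := Complex.exp (3 * x) - ∑ k ∈ range 14, (3 * x) ^ k / (k.factorial : ℂ) with hR3
  set R2 : ℂ := Complex.exp (2 * x) - ∑ k ∈ range 14, (2 * x) ^ k / (k.factorial : ℂ) with hR2
  set R1 : ℂ := Complex.exp x - ∑ k ∈ range 14, x ^ k / (k.factorial : ℂ) with hR1
  have e : K + (A : ℂ) * Complex.exp (3 * x) + (B : ℂ) * Complex.exp (2 * x) +
      (C : ℂ) * Complex.exp x =
      ∑ k ∈ range 14, (a k : ℂ) * x ^ k + ((A : ℂ) * R3 + (B : ℂ) * R2 + (C : ℂ) * R1) := by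
    rw [← hK x, Finset.sum_add_distrib, Finset.sum_add_distrib, hR3, hR2, hR1]
    simp only [mul_div_assoc, ← Finset.mul_sum]
    ring
  rw [e]
  refine (norm_add_le _ _).trans (add_le_add ?_ ?_)
  · refine (norm_sum_le _ _).trans (Finset.sum_le_sum fun k hk => ?_)
    rw [norm_mul, Complex.norm_real, norm_pow, Real.norm_eq_abs]
    exact mul_le_mul (hab k hk) (pow_le_pow_left₀ (norm_nonneg _) hx k) (by positivity)
      ((abs_nonneg _).trans (hab k hk))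
  · have h3 : ‖(A : ℂ) * R3‖ ≤ |A| * ((3 * X) ^ 14 / (Nat.factorial 14 : ℝ) * 2) := by
      rw [norm_mul, Complex.norm_real, Real.norm_eq_abs]
      exact mul_le_mul_of_nonneg_left r3 (abs_nonneg _)
    have h2 : ‖(B : ℂ) * R2‖ ≤ |B| * ((2 * X) ^ 14 / (Nat.factorial 14 : ℝ) * 2) := by
      rw [norm_mul, Complex.norm_real, Real.norm_eq_abs]
      exact mul_le_mul_of_nonneg_left r2 (abs_nonneg _)
    have h1 : ‖(C : ℂ) * R1‖ ≤ |C| * (X ^ 14 / (Nat.factorial 14 : ℝ) * 2) := by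
      rw [norm_mul, Complex.norm_real, Real.norm_eq_abs]
      exact mul_le_mul_of_nonneg_left r1 (abs_nonneg _)
    refine (norm_add₃_le).trans ((add_le_add (add_le_add h3 h2) h1).trans (le_of_eq ?_))
    rw [mul_pow, mul_pow]
    ring

theorem exp_two (x : ℂ) : Complex.exp (2 * x) = Complex.exp x ^ 2 := by
  rw [← Complex.exp_nat_mul]
  norm_num

theorem exp_three (x : ℂ) : Complex.exp (3 * x) = Complex.exp x ^ 3 := by
  rw [← Complex.exp_nat_mul]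
  norm_num

/-- coefficients of `E₀ (exp x)` -/
noncomputable def a1 (k : ℕ) : ℝ :=
  if k = 0 then 0 else (-1 / 2 * 3 ^ k + 2 * 2 ^ k - 5 / 2) / (k.factorial : ℝ)

/-- their majorants -/
noncomputable def b1 (k : ℕ) : ℝ :=
  if k = 2 then 1 / 2 else if k ≤ 1 then 0 else
    (1 / 2 * 3 ^ k - 2 * 2 ^ k + 5 / 2) / (k.factorial : ℝ)

theorem e0_bound (x : ℂ) (X : ℝ) (hx : ‖x‖ ≤ X) (hX : X ≤ 18 / 25) :
    ‖E0 (Complex.exp x)‖ ≤ epsb X := by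
  have hX0 : 0 ≤ X := (norm_nonneg x).trans hx
  have h1 := comb (-1 / 2) 2 (-5 / 2) a1 b1 x X hx hX 1 (by
    intro y
    simp only [Finset.sum_range_succ, Finset.sum_range_zero, a1]
    norm_num [Nat.factorial]
    ring) (by
    intro k hk
    rw [Finset.mem_range] at hk
    interval_cases k <;> norm_num [a1, b1, Nat.factorial, abs_le])
  have e : E0 (Complex.exp x) = 1 + ((-1 / 2 : ℝ) : ℂ) * Complex.exp (3 * x) +
      ((2 : ℝ) : ℂ) * Complex.exp (2 * x) + ((-5 / 2 : ℝ) : ℂ) * Complex.exp x := by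
    rw [exp_two, exp_three, E0]
    push_cast
    ring
  rw [e]
  refine h1.trans ?_
  have p1 : X ^ 1 ≤ (18 / 25) ^ 1 := pow_le_pow_left₀ hX0 hX 1
  have p2 : X ^ 2 ≤ (18 / 25) ^ 2 := pow_le_pow_left₀ hX0 hX 2
  have p3 : X ^ 3 ≤ (18 / 25) ^ 3 := pow_le_pow_left₀ hX0 hX 3
  have p4 : X ^ 4 ≤ (18 / 25) ^ 4 := pow_le_pow_left₀ hX0 hX 4
  have p5 : X ^ 5 ≤ (18 / 25) ^ 5 := pow_le_pow_left₀ hX0 hX 5
  have p6 : X ^ 6 ≤ (18 / 25) ^ 6 := pow_le_pow_left₀ hX0 hX 6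
  have p7 : X ^ 7 ≤ (18 / 25) ^ 7 := pow_le_pow_left₀ hX0 hX 7
  have p8 : X ^ 8 ≤ (18 / 25) ^ 8 := pow_le_pow_left₀ hX0 hX 8
  have key : b1 6 + b1 7 * X ^ 1 + b1 8 * X ^ 2 + b1 9 * X ^ 3 + b1 10 * X ^ 4 + b1 11 * X ^ 5 +
      b1 12 * X ^ 6 + b1 13 * X ^ 7 + (|(-1 / 2 : ℝ)| * 3 ^ 14 + |(2 : ℝ)| * 2 ^ 14 +
        |(-5 / 2 : ℝ)|) * (X ^ 8 / (Nat.factorial 14 : ℝ) * 2) ≤ 1 / 2 := by
    norm_num [b1, Nat.factorial, abs_of_nonneg, abs_of_neg] at p1 p2 p3 p4 p5 p6 p7 p8 ⊢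
    linarith
  have h2 := mul_nonneg (pow_nonneg hX0 6) (sub_nonneg.mpr key)
  refine le_trans (le_of_eq ?_) (sub_le_self (epsb X) h2)
  simp only [Finset.sum_range_succ, Finset.sum_range_zero, epsb]
  norm_num [b1, Nat.factorial]
  ring

/-- coefficients of the bracket of `M (exp x)`, `t = 1/s` -/
noncomputable def a2 (t : ℝ) (k : ℕ) : ℝ :=
  ((5 * t - 1) * 3 ^ k - (10 * t + 2) * 2 ^ k + (5 * t - 1)) / (k.factorial : ℝ)

/-- their majorants -/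
noncomputable def b2 (s t : ℝ) (k : ℕ) : ℝ :=
  if k = 0 then 4 else if k = 1 then 8 else if k = 2 then 5 * t - 9 + 8 * s else
  if k = 3 then 10 * t - 22 / 3 else if k = 4 then 5 * t * (25 / 12) - 19 / 4 else
    5 * t * (3 ^ k - 2 * 2 ^ k + 1) / (k.factorial : ℝ)

theorem mm_bound (x : ℂ) (X s : ℝ) (hx : ‖x‖ ≤ X) (hX : X ≤ 18 / 25) (hs0 : 0 < s)
    (hs1 : s ≤ 1) : ‖MM s (Complex.exp x)‖ ≤ mb X s := by
  have hX0 : 0 ≤ X := (norm_nonneg x).trans hx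
  obtain ⟨t, ht⟩ : ∃ t : ℝ, t = 1 / s := ⟨_, rfl⟩
  have hst : s * t = 1 := by
    rw [ht]
    field_simp
  have ht1 : 1 ≤ t := by
    rw [ht, le_div_iff₀ hs0]
    linarith
  have h1 := comb (5 * t - 1) (-(10 * t + 2)) (5 * t - 1) (a2 t) (b2 s t) x X hx hX 0 (by
    intro y
    simp only [Finset.sum_range_succ, Finset.sum_range_zero, a2]
    norm_num [Nat.factorial]
    ring) (by
    intro k hk
    rw [Finset.mem_range] at hk
    have h9 : 0 ≤ 4 * s - 9 + 5 * t := by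
      have h8 : 0 ≤ (4 * s - 5) * (s - 1) := by nlinarith
      have h7 : 4 * s - 9 + 5 * t = t * ((4 * s - 5) * (s - 1)) := by
        have : t * ((4 * s - 5) * (s - 1)) = 4 * s * (s * t) - 9 * (s * t) + 5 * t := by ring
        rw [this, hst]
        ring
      rw [h7]
      positivity
    interval_cases k <;> norm_num [a2, b2, Nat.factorial, abs_le] <;> constructor <;> linarith)
  have e : MM s (Complex.exp x) = (((1 - s) / 8 : ℝ) : ℂ) *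
      (0 + ((5 * t - 1 : ℝ) : ℂ) * Complex.exp (3 * x) +
      ((-(10 * t + 2) : ℝ) : ℂ) * Complex.exp (2 * x) +
      ((5 * t - 1 : ℝ) : ℂ) * Complex.exp x) := by
    rw [exp_two, exp_three, MM, ← ht]
    have hst' : (s : ℂ) * (t : ℂ) = 1 := by exact_mod_cast hst
    push_cast
    linear_combination (5 / 8 * (Complex.exp x - 2 * Complex.exp x ^ 2 + Complex.exp x ^ 3)) *
      hst'
  have h2 : |5 * t - 1| ≤ 5 * t := by
    rw [abs_le]
    constructor <;> linarith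
  have h3 : |(-(10 * t + 2))| ≤ 12 * t := by
    rw [abs_le]
    constructor <;> linarith
  have htail : (|5 * t - 1| * 3 ^ 14 + |(-(10 * t + 2))| * 2 ^ 14 + |5 * t - 1|) *
      (X ^ 14 / (Nat.factorial 14 : ℝ) * 2) ≤
      (5 * t * 3 ^ 14 + 12 * t * 2 ^ 14 + 5 * t) * (X ^ 14 / (Nat.factorial 14 : ℝ) * 2) := by
    gcongr
  have p1 : X ^ 1 ≤ (18 / 25) ^ 1 := pow_le_pow_left₀ hX0 hX 1
  have p2 : X ^ 2 ≤ (18 / 25) ^ 2 := pow_le_pow_left₀ hX0 hX 2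
  have p3 : X ^ 3 ≤ (18 / 25) ^ 3 := pow_le_pow_left₀ hX0 hX 3
  have p4 : X ^ 4 ≤ (18 / 25) ^ 4 := pow_le_pow_left₀ hX0 hX 4
  have p5 : X ^ 5 ≤ (18 / 25) ^ 5 := pow_le_pow_left₀ hX0 hX 5
  have p6 : X ^ 6 ≤ (18 / 25) ^ 6 := pow_le_pow_left₀ hX0 hX 6
  have p7 : X ^ 7 ≤ (18 / 25) ^ 7 := pow_le_pow_left₀ hX0 hX 7
  have p8 : X ^ 8 ≤ (18 / 25) ^ 8 := pow_le_pow_left₀ hX0 hX 8
  have p9 : X ^ 9 ≤ (18 / 25) ^ 9 := pow_le_pow_left₀ hX0 hX 9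
  have key : 180 / 120 + 602 / 720 * X ^ 1 + 1932 / 5040 * X ^ 2 + 6050 / 40320 * X ^ 3 +
      18660 / 362880 * X ^ 4 + 57002 / 3628800 * X ^ 5 + 173052 / 39916800 * X ^ 6 +
      523250 / 479001600 * X ^ 7 + 1577940 / 6227020800 * X ^ 8 +
      (3 ^ 14 + 12 / 5 * 2 ^ 14 + 1) * (X ^ 9 / (Nat.factorial 14 : ℝ) * 2) ≤ 12 / 5 := by
    norm_num [Nat.factorial] at p1 p2 p3 p4 p5 p6 p7 p8 p9 ⊢
    linarith
  have h4 := mul_nonneg (mul_nonneg (show (0 : ℝ) ≤ 5 * t by linarith) (pow_nonneg hX0 5))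
    (sub_nonneg.mpr key)
  have h5 : ∑ k ∈ range 14, b2 s t k * X ^ k +
      (5 * t * 3 ^ 14 + 12 * t * 2 ^ 14 + 5 * t) * (X ^ 14 / (Nat.factorial 14 : ℝ) * 2) ≤
      4 + 8 * X + (5 * t - 9 + 8 * s) * X ^ 2 +
        5 * t * (2 * X ^ 3 + 25 / 12 * X ^ 4 + 12 / 5 * X ^ 5) -
        (22 / 3 * X ^ 3 + 19 / 4 * X ^ 4) := by
    refine le_trans (le_of_eq ?_) (sub_le_self _ h4)
    simp only [Finset.sum_range_succ, Finset.sum_range_zero]
    norm_num [b2, Nat.factorial]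
    ring
  have h6 : mb X s = (1 - s) / 8 * (4 + 8 * X + (5 * t - 9 + 8 * s) * X ^ 2 +
        5 * t * (2 * X ^ 3 + 25 / 12 * X ^ 4 + 12 / 5 * X ^ 5) -
        (22 / 3 * X ^ 3 + 19 / 4 * X ^ 4)) := by
    rw [mb, ht]
    ring
  rw [e, norm_mul, Complex.norm_real, Real.norm_of_nonneg (by linarith), h6]
  exact mul_le_mul_of_nonneg_left (h1.trans ((add_le_add le_rfl htail).trans h5)) (by linarith)

theorem sup_st : SupStmt := fun x X s hx hX hs0 hs1 =>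
  ⟨e0_bound x X hx hX, mm_bound x X s hx hX hs0 hs1⟩

end Pool.Agent.Lib.MP_7682a8_an.KB.H6
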